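import Pool.Agent.N89.HX.Stm
import Pool.Agent.R410.PW.Weil

/-!
# HX/WB (helper861 for helper89): the Weil bound for plane curves, without the fibres which are not
separable
-/

set_option autoImplicit false
set_option linter.all false

namespace Pool.Agent.N861.HX

open Polynomial Pool.Agent Pool.Agent.N89.HX

theorem bp_map {A A' : Type} [CommRing A] [CommRing A'] (φ : A →+* A') {D B : ℕ}
    (h : Fin D → Fin (B + 1) → A) :
    bp (fun i j => φ (h i j)) = (bp h).map (mapRingHom φ) := by
  unfold bp
  simp [Polynomial.map_sum]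

theorem bp_tail_degree {A : Type} [CommRing A] {D B : ℕ}
    (h : Fin D → Fin (B + 1) → A) :
    (∑ i, C (∑ j, C (h i j) * X ^ (j : ℕ)) * X ^ (i : ℕ) : A[X][X]).degree < D := by
  rw [Polynomial.degree_lt_iff_coeff_zero]
  intro m hm
  rw [finsetSum_coeff]
  refine Finset.sum_eq_zero fun i _ => ?_
  rw [coeff_C_mul, coeff_X_pow, if_neg (by have := i.2; omega), mul_zero]

theorem bp_monic {A : Type} [CommRing A] {D B : ℕ} (h : Fin D → Fin (B + 1) → A) :
    (bp h).Monic := monic_X_pow_add (bp_tail_degree h)

theorem bp_natDegree {A : Type} [CommRing A] [Nontrivial A] {D B : ℕ} (h : Fin D → Fin (B + 1) → A) :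
    (bp h).natDegree = D := by
  unfold bp
  rw [natDegree_eq_of_degree_eq_some]
  rw [degree_add_eq_left_of_degree_lt, degree_X_pow]
  rw [degree_X_pow]
  exact bp_tail_degree h

theorem bp_coeff {A : Type} [CommRing A] {D B : ℕ} (h : Fin D → Fin (B + 1) → A) (m : ℕ) :
    ((bp h).coeff m).natDegree ≤ B := by
  unfold bp
  rw [coeff_add, finsetSum_coeff]
  refine (natDegree_add_le _ _).trans (max_le ?_ ?_)
  · rw [coeff_X_pow]
    split_ifs <;> simp
  · refine natDegree_sum_le_of_forall_le _ _ fun i _ => ?_
    rw [coeff_C_mul, coeff_X_pow]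
    split_ifs
    · rw [mul_one]
      refine natDegree_sum_le_of_forall_le _ _ fun j _ => ?_
      refine (natDegree_C_mul_X_pow_le _ _).trans ?_
      have := j.2
      omega
    · simp

theorem det_natDegree {A : Type} [CommRing A] {n B : ℕ} (M : Matrix (Fin n) (Fin n) A[X])
    (hM : ∀ i j, (M i j).natDegree ≤ B) : M.det.natDegree ≤ n * B := by
  rw [Matrix.det_apply]
  refine natDegree_sum_le_of_forall_le _ _ fun σ _ => ?_
  refine (natDegree_smul_le _ _).trans ?_
  refine (natDegree_prod_le _ _).trans ?_
  refine (Finset.sum_le_card_nsmul _ _ B fun i _ => hM _ _).trans ?_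
  simp

theorem main : S_WB := by
  intro D B hD
  refine ⟨R410.PW.WC D B (2 * D * B) + 2 * D * B * D + D + 1, ?_⟩
  intro k Ω _ _ _ _ _ _ h hchar hirr
  classical
  set f := bp h with hf
  have hfm : f.Monic := bp_monic h
  have hfd : f.natDegree = D := bp_natDegree h
  rw [bp_map (algebraMap k Ω) h, ← hf] at hirr
  have hirrk : Irreducible f := hfm.irreducible_of_irreducible_map _ _ hirr
  set φ := algebraMap k[X] (RatFunc k) with hφ
  have hφi : Function.Injective φ := IsFractionRing.injective k[X] (RatFunc k)
  have hirrK : Irreducible (f.map φ) :=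
    (hfm.irreducible_iff_irreducible_map_fraction_map (K := RatFunc k)).1 hirrk
  have hDk : (D : k) ≠ 0 := by
    intro h0
    have h1 : ringChar k ∣ D := (ringChar.spec k D).1 h0
    have := Nat.le_of_dvd hD h1
    omega
  have hder : derivative f ≠ 0 := by
    intro h0
    have h1 := congrArg (fun p => coeff p (D - 1)) h0
    simp only [coeff_derivative, coeff_zero] at h1
    rw [show D - 1 + 1 = D by omega, ← hfd, coeff_natDegree, hfm.leadingCoeff, one_mul, hfd] at h1
    have h2 : ((D : ℕ) : k[X]) = 0 := by
      rw [← h1]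
      push_cast [Nat.cast_sub hD]
      ring
    rw [← C_eq_natCast, C_eq_zero] at h2
    exact hDk h2
  have hsep : (f.map φ).Separable := by
    rw [separable_iff_derivative_ne_zero hirrK, derivative_map]
    rw [Ne, Polynomial.map_eq_zero_iff hφi]
    exact hder
  set m := (derivative f).natDegree with hm
  have hmD : m ≤ D := (natDegree_derivative_le f).trans (by omega)
  obtain ⟨δ, hδ⟩ : ∃ δ, δ = resultant f (derivative f) D m := ⟨_, rfl⟩
  have hδ0 : δ ≠ 0 := by
    intro h0
    have h1 := resultant_ne_zero (f.map φ) ((derivative f).map φ) (by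
      rw [← derivative_map]; exact hsep)
    rw [natDegree_map_eq_of_injective hφi, natDegree_map_eq_of_injective hφi, hfd, ← hm,
      resultant_map_map, ← hδ, h0, map_zero] at h1
    exact h1 rfl
  obtain ⟨p, q, -, -, hpq⟩ := exists_mul_add_mul_eq_C_resultant (m := D) (n := m) f (derivative f)
    hfd.le le_rfl (Or.inl (by omega))
  rw [← hδ] at hpq
  have hco : ∀ j, ((derivative f).coeff j).natDegree ≤ B := by
    intro j
    rw [coeff_derivative]
    have : ((j : k[X]) + 1) = C ((j : k) + 1) := by simp
    rw [this]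
    exact (natDegree_mul_C_le _ _).trans (bp_coeff h _)
  have hδd : δ.natDegree ≤ 2 * D * B := by
    rw [hδ, resultant]
    refine (det_natDegree (B := B) _ ?_).trans ?_
    · intro i j
      rw [sylvester, Matrix.of_apply]
      refine Fin.addCases (fun j => ?_) (fun j => ?_) j
      · rw [Fin.addCases_left]
        split_ifs
        · exact hco _
        · simp
      · rw [Fin.addCases_right]
        split_ifs
        · exact bp_coeff h _
        · simp
    · exact Nat.mul_le_mul_right _ (by omega)
  have hAB : p * f + q * derivative f = C δ := by rw [← hpq]; ring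
  have hw := R410.PW.weil Ω hfm (by omega) hAB hδ0 hδd (d := B) (fun i => bp_coeff h i) hirr
  rw [hfd, Nat.card_eq_fintype_card] at hw
  set s := √(Fintype.card k : ℝ) with hs
  have hs1 : 1 ≤ s := by
    rw [hs, Real.one_le_sqrt]
    exact_mod_cast Fintype.card_pos
  set N := {z : k × k | evalEval z.1 z.2 f = 0}.ncard with hN
  set G := {z : k × k | evalEval z.1 z.2 f = 0 ∧ (f.map (evalRingHom z.1)).Separable} with hG
  have hNG : N ≤ G.ncard + 2 * D * B * D := by
    let Z := δ.roots.toFinset
    let Bd : Finset (k × k) := (Z.sigma (fun c => (f.map (evalRingHom c)).roots.toFinset)).image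
      (fun s => (s.1, s.2))
    have h1 : {z : k × k | evalEval z.1 z.2 f = 0} ⊆ G ∪ ↑Bd := by
      rintro ⟨c, b⟩ hz
      simp only [Set.mem_ofPred_eq] at hz
      by_cases hc : δ.eval c = 0
      · right
        rw [Finset.mem_coe, Finset.mem_image]
        refine ⟨⟨c, b⟩, ?_, rfl⟩
        rw [Finset.mem_sigma, Multiset.mem_toFinset, Multiset.mem_toFinset, mem_roots hδ0,
          mem_roots (hfm.map _).ne_zero, IsRoot.def, IsRoot.def, map_evalRingHom_eval]
        exact ⟨hc, hz⟩
      · left
        refine ⟨hz, ?_⟩
        rw [Polynomial.separable_def']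
        have h2 := congrArg (Polynomial.map (evalRingHom c)) hAB
        rw [Polynomial.map_add, Polynomial.map_mul, Polynomial.map_mul, Polynomial.map_C,
          ← derivative_map, coe_evalRingHom] at h2
        refine ⟨C (δ.eval c)⁻¹ * p.map (evalRingHom c), C (δ.eval c)⁻¹ * q.map (evalRingHom c), ?_⟩
        rw [mul_assoc, mul_assoc, ← mul_add, h2, ← C_mul, inv_mul_cancel₀ hc, C_1]
    refine (Set.ncard_le_ncard h1 (Set.toFinite _)).trans ((Set.ncard_union_le _ _).trans ?_)
    apply Nat.add_le_add_left
    rw [Set.ncard_coe_finset]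
    refine Finset.card_image_le.trans ?_
    rw [Finset.card_sigma]
    refine (Finset.sum_le_card_nsmul _ _ D fun c _ => ?_).trans ?_
    · refine (Multiset.toFinset_card_le _).trans ((card_roots' _).trans ?_)
      rw [hfm.natDegree_map, hfd]
    · rw [smul_eq_mul]
      apply Nat.mul_le_mul_right
      exact (Multiset.toFinset_card_le _).trans ((card_roots' _).trans hδd)
  have h2 : (N : ℝ) ≤ G.ncard + 2 * D * B * D := by exact_mod_cast hNG
  have h3 := (abs_le.1 hw).1
  have h4 : (2 * D * B * D : ℝ) ≤ (2 * D * B * D : ℝ) * s := le_mul_of_one_le_right (by positivity) hs1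
  have h5 : (0 : ℝ) ≤ (D + 1) * s := by positivity
  push_cast
  linarith

end Pool.Agent.N861.HX
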